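import Mathlib
import Pool.Agent.U798.BV.Spec

/-! Project BV, package RGRP: regrouping of an absolutely convergent series along the classes `m p^i q^j`. -/

set_option autoImplicit false

open MeasureTheory Filter Topology

namespace Pool.Agent.U111.BV

/-- the positive integers prime to `p` and `q` -/
abbrev TT (p q : ℕ) : Type := {m : ℕ // 1 ≤ m ∧ ¬ p ∣ m ∧ ¬ q ∣ m}

/-- `(m, (i, j)) ↦ m p^i q^j - 1` -/
def psi (p q : ℕ) (x : TT p q × (ℕ × ℕ)) : ℕ := x.1.1 * p ^ x.2.1 * q ^ x.2.2 - 1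

theorem prod_pos {p q : ℕ} (hp : p.Prime) (hq : q.Prime) (x : TT p q × (ℕ × ℕ)) :
    1 ≤ x.1.1 * p ^ x.2.1 * q ^ x.2.2 :=
  Nat.mul_pos (Nat.mul_pos x.1.2.1 (pow_pos hp.pos _)) (pow_pos hq.pos _)

theorem psi_add {p q : ℕ} (hp : p.Prime) (hq : q.Prime) (x : TT p q × (ℕ × ℕ)) :
    psi p q x + 1 = x.1.1 * p ^ x.2.1 * q ^ x.2.2 := Nat.sub_add_cancel (prod_pos hp hq x)

theorem fac_p {p q : ℕ} (hp : p.Prime) (hq : q.Prime) (hpq : p ≠ q) (x : TT p q × (ℕ × ℕ)) :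
    (x.1.1 * p ^ x.2.1 * q ^ x.2.2).factorization p = x.2.1 := by
  have hm : x.1.1 ≠ 0 := by have := x.1.2.1; omega
  have h1 : p ^ x.2.1 ≠ 0 := pow_ne_zero _ hp.ne_zero
  have h2 : q ^ x.2.2 ≠ 0 := pow_ne_zero _ hq.ne_zero
  rw [Nat.factorization_mul (mul_ne_zero hm h1) h2, Nat.factorization_mul hm h1, hp.factorization_pow,
    hq.factorization_pow]
  have h3 : x.1.1.factorization p = 0 := Nat.factorization_eq_zero_of_not_dvd x.1.2.2.1
  simp [h3, Finsupp.single_eq_of_ne hpq]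

theorem fac_q {p q : ℕ} (hp : p.Prime) (hq : q.Prime) (hpq : p ≠ q) (x : TT p q × (ℕ × ℕ)) :
    (x.1.1 * p ^ x.2.1 * q ^ x.2.2).factorization q = x.2.2 := by
  have hm : x.1.1 ≠ 0 := by have := x.1.2.1; omega
  have h1 : p ^ x.2.1 ≠ 0 := pow_ne_zero _ hp.ne_zero
  have h2 : q ^ x.2.2 ≠ 0 := pow_ne_zero _ hq.ne_zero
  rw [Nat.factorization_mul (mul_ne_zero hm h1) h2, Nat.factorization_mul hm h1, hp.factorization_pow,
    hq.factorization_pow]
  have h3 : x.1.1.factorization q = 0 := Nat.factorization_eq_zero_of_not_dvd x.1.2.2.2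
  simp [h3, Finsupp.single_eq_of_ne hpq.symm]

theorem psi_bij {p q : ℕ} (hp : p.Prime) (hq : q.Prime) (hpq : p ≠ q) : Function.Bijective (psi p q) := by
  constructor
  · intro x y hxy
    have h : x.1.1 * p ^ x.2.1 * q ^ x.2.2 = y.1.1 * p ^ y.2.1 * q ^ y.2.2 := by
      rw [← psi_add hp hq x, ← psi_add hp hq y, hxy]
    have h1 : x.2.1 = y.2.1 := by rw [← fac_p hp hq hpq x, ← fac_p hp hq hpq y, h]
    have h2 : x.2.2 = y.2.2 := by rw [← fac_q hp hq hpq x, ← fac_q hp hq hpq y, h]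
    rw [h1, h2] at h
    have h3 := Nat.eq_of_mul_eq_mul_right (pow_pos hq.pos _) h
    have h4 := Nat.eq_of_mul_eq_mul_right (pow_pos hp.pos _) h3
    exact Prod.ext (Subtype.ext h4) (Prod.ext h1 h2)
  · intro n
    obtain ⟨i, n', hn', hn⟩ := Nat.exists_eq_pow_mul_and_not_dvd (n := n + 1) (by omega) p hp.ne_one
    have hn'0 : n' ≠ 0 := by
      rintro rfl
      simp at hn
    obtain ⟨j, m, hm, hmn⟩ := Nat.exists_eq_pow_mul_and_not_dvd (n := n') hn'0 q hq.ne_one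
    have hm0 : m ≠ 0 := by
      rintro rfl
      exact hn'0 (by rw [hmn, mul_zero])
    have hpm : ¬ p ∣ m := fun h => hn' (by rw [hmn]; exact Dvd.dvd.mul_left h _)
    refine ⟨(⟨m, by omega, hpm, hm⟩, (i, j)), ?_⟩
    have h1 : m * p ^ i * q ^ j = n + 1 := by rw [hn, hmn]; ring
    show m * p ^ i * q ^ j - 1 = n
    rw [h1]
    rfl

theorem key {p q : ℕ} (hp : p.Prime) (hq : q.Prime) (hpq : p ≠ q) (c : ℤ → ℂ) (hc : Summable c)
    (h : ∀ m : ℕ, 1 ≤ m → ¬ p ∣ m → ¬ q ∣ m →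
      ∑' ij : ℕ × ℕ, (c (m * p ^ ij.1 * q ^ ij.2) + c (-(m * p ^ ij.1 * q ^ ij.2))) = 0)
    (g : ℤ → ℂ) (hg : Summable g) (h0 : g 0 = 0) (hn : ∀ n : ℤ, n ≠ 0 → g n = c n) :
    ∑' n : ℤ, g n = 0 := by
  have i1 : Function.Injective fun n : ℕ => (n : ℤ) + 1 := fun a b hab => by
    have : (a : ℤ) + 1 = b + 1 := hab
    omega
  have i2 : Function.Injective fun n : ℕ => -((n : ℤ) + 1) := fun a b hab => by
    have : -((a : ℤ) + 1) = -((b : ℤ) + 1) := hab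
    omega
  have hc1 : Summable fun n : ℕ => c ((n : ℤ) + 1) := hc.comp_injective i1
  have hc2 : Summable fun n : ℕ => c (-((n : ℤ) + 1)) := hc.comp_injective i2
  have hg1 : Summable fun n : ℕ => g (n : ℤ) := hg.comp_injective Nat.cast_injective
  have hg2 : Summable fun n : ℕ => g (-((n : ℤ) + 1)) := hg.comp_injective i2
  rw [tsum_of_nat_of_neg_add_one hg1 hg2, hg1.tsum_eq_zero_add]
  have e1 : ∀ n : ℕ, g ((n + 1 : ℕ) : ℤ) = c ((n : ℤ) + 1) := by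
    intro n
    rw [hn _ (by push_cast; omega)]
    push_cast
    rfl
  have e2 : ∀ n : ℕ, g (-((n : ℤ) + 1)) = c (-((n : ℤ) + 1)) := fun n => hn _ (by omega)
  have e0 : g ((0 : ℕ) : ℤ) = 0 := h0
  rw [tsum_congr e1, tsum_congr e2, e0, zero_add, ← hc1.tsum_add hc2]
  -- the bijection
  obtain ⟨E, hE⟩ : ∃ E : TT p q × (ℕ × ℕ) ≃ ℕ, ∀ x, E x = psi p q x :=
    ⟨Equiv.ofBijective _ (psi_bij hp hq hpq), fun x => rfl⟩
  have hsum : Summable fun n : ℕ => c ((n : ℤ) + 1) + c (-((n : ℤ) + 1)) := hc1.add hc2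
  rw [← E.tsum_eq]
  have hsum' : Summable fun x : TT p q × (ℕ × ℕ) => c (((E x : ℕ) : ℤ) + 1) + c (-(((E x : ℕ) : ℤ) + 1)) :=
    hsum.comp_injective E.injective
  rw [hsum'.tsum_prod]
  have hz : ∀ m : TT p q, ∑' ij : ℕ × ℕ,
      (c (((E (m, ij) : ℕ) : ℤ) + 1) + c (-(((E (m, ij) : ℕ) : ℤ) + 1))) = 0 := by
    intro m
    rw [← h m.1 m.2.1 m.2.2.1 m.2.2.2]
    refine tsum_congr fun ij => ?_
    have e3 : (((E (m, ij) : ℕ) : ℤ) + 1) = (m.1 : ℤ) * p ^ ij.1 * q ^ ij.2 := by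
      have := psi_add hp hq (m, ij)
      rw [hE]
      have h2 : ((psi p q (m, ij) + 1 : ℕ) : ℤ) = ((m.1 * p ^ ij.1 * q ^ ij.2 : ℕ) : ℤ) := by rw [this]
      push_cast at h2
      exact h2
    rw [e3]
  rw [tsum_congr hz, tsum_zero]

theorem t_RGRP : Pool.Agent.U798.BV.S_RGRP := by
  intro p q hp hq hpq c hc h
  have hs : Summable fun n : ℤ => (if n ≠ 0 then c n else 0 : ℂ) := by
    refine Summable.of_norm_bounded (g := fun n => ‖c n‖) hc.norm fun n => ?_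
    by_cases hn : n ≠ 0
    · rw [if_pos hn]
    · rw [if_neg hn, norm_zero]
      exact norm_nonneg _
  exact key hp hq hpq c hc h _ hs (if_neg (by simp)) fun n hn => if_pos hn

end Pool.Agent.U111.BV
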